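import Mathlib
import Pool.Agent.R317.Wps

set_option autoImplicit false

open Finset

/-- For every `n > 1` the sum of `(1 + λ_1) C(λ) u(λ)` over the set `Λ_n` is `2 ^ n`. -/
theorem Pool.Agent.Results.MP_62fa17_nt.PowersOfTwo.result :
    (∀ (n : ℕ) (l : Fin n → ℕ), l ∈ Pool.Agent.R317.Wps.Lam n ↔ Antitone l ∧ ∑ i, l i = n) ∧
    ∀ n : ℕ, 1 < n →
      ∑ l ∈ Pool.Agent.R317.Wps.Lam n, (1 + (Pool.Agent.R317.Wps.ext l 0 : ℚ)) *
        (∏ i ∈ range n, (((Pool.Agent.R317.Wps.ext l i).choose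
          (Pool.Agent.R317.Wps.ext l (i + 1)) : ℕ) : ℚ)) *
        (∏ i ∈ range n, ((if i = 0 then 1 else 2 * ((i : ℚ) + 1) - 3) / ((i : ℚ) + 1)) ^
          Pool.Agent.R317.Wps.ext l i) = 2 ^ n := by
  refine ⟨Pool.Agent.R317.Wps.mem_Lam, fun n hn => ?_⟩
  rw [← Pool.Agent.R317.Wps.A_eq n (by omega), Pool.Agent.R317.Wps.A]
  refine sum_congr rfl fun l _ => ?_
  unfold Pool.Agent.R317.Wps.Cb Pool.Agent.R317.Wps.wt Pool.Agent.R317.Wps.w1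
  push_cast
  congr 1
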