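import Mathlib
import Pool.Agent.R317.Wps

set_option autoImplicit false

open Finset

/-- For every `n > 1` the sum of `(-1) ^ (1 + λ_1) (1 + λ_1) C(λ) v(λ)` over the set `Λ_n` is `0`. -/
theorem Pool.Agent.Results.MP_62fa17_nt.Vanishing.result :
    (∀ (n : ℕ) (l : Fin n → ℕ), l ∈ Pool.Agent.R317.Wps.Lam n ↔ Antitone l ∧ ∑ i, l i = n) ∧
    ∀ n : ℕ, 1 < n →
      ∑ l ∈ Pool.Agent.R317.Wps.Lam n, (-1) ^ (1 + Pool.Agent.R317.Wps.ext l 0) *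
        (1 + (Pool.Agent.R317.Wps.ext l 0 : ℚ)) *
        (∏ i ∈ range n, (((Pool.Agent.R317.Wps.ext l i).choose
          (Pool.Agent.R317.Wps.ext l (i + 1)) : ℕ) : ℚ)) *
        (∏ i ∈ range n, ((2 * ((i : ℚ) + 1) - 1) / ((i : ℚ) + 1)) ^
          Pool.Agent.R317.Wps.ext l i) = 0 := by
  refine ⟨Pool.Agent.R317.Wps.mem_Lam, fun n hn => ?_⟩
  rw [← Pool.Agent.R317.Wps.B_eq n hn, Pool.Agent.R317.Wps.B]
  refine sum_congr rfl fun l _ => ?_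
  unfold Pool.Agent.R317.Wps.Cb Pool.Agent.R317.Wps.wt Pool.Agent.R317.Wps.w2
  push_cast
  rfl
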